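import Mathlib

set_option autoImplicit false
set_option maxHeartbeats 4000000

/-!
# The distinguishing index of the Mycielskian (MP_da4765_co)

For every finite graph `G` with at least three vertices and every `d ≥ 1`: if `G` has a
`d`-distinguishing edge colouring, then so has its Mycielskian `μ(G)`.  Hence
`D'(μ(G)) ≤ D'(G)` for **every** connected graph `G` with at least three vertices: there are no
exceptional graphs at all.
-/

namespace Pool.Agent.Results.MP_da4765_co.NoExceptions

universe x

/-- The vertices of the Mycielskian: a copy `v a` and a shadow `u a` of every vertex `a`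
of `G`, and the root `w`. -/
inductive MVert (V : Type x) : Type x
  | v : V → MVert V
  | u : V → MVert V
  | w : MVert V

/-- Adjacency in the Mycielskian. -/
def MAdj {V : Type x} (G : SimpleGraph V) : MVert V → MVert V → Prop
  | .v a, .v b => G.Adj a b
  | .v a, .u b => G.Adj a b
  | .u a, .v b => G.Adj a b
  | .u _, .w => True
  | .w, .u _ => True
  | _, _ => False

/-- The Mycielskian `μ(G)`. -/
def mycielskian {V : Type x} (G : SimpleGraph V) : SimpleGraph (MVert V) where
  Adj := MAdj G
  symm := ⟨by
    rintro (a | a | _) (b | b | _) h <;> simp_all [MAdj, SimpleGraph.adj_comm]⟩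
  loopless := ⟨by
    rintro (a | a | _) h <;> simp_all [MAdj]⟩

/-- The edge colouring `c` of `H` with `d` colours is distinguishing: the only automorphism of
`H` that maps every colour class onto itself is the identity. -/
def Distinguishing {W : Type x} (H : SimpleGraph W) {d : ℕ} (c : H.edgeSet → Fin d) : Prop :=
  ∀ φ : H ≃g H, (∀ i : Fin d, φ.mapEdgeSet '' (c ⁻¹' {i}) = c ⁻¹' {i}) → ∀ a, φ a = a

/-- `H` has a `d`-distinguishing edge colouring. -/
def HasDistinguishing {W : Type x} (H : SimpleGraph W) (d : ℕ) : Prop :=
  ∃ c : H.edgeSet → Fin d, Distinguishing H c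

/-- The distinguishing index: the least `d ≥ 1` such that `H` has a `d`-distinguishing edge
colouring. -/
noncomputable def distIndex {W : Type x} (H : SimpleGraph W) : ℕ :=
  sInf {d : ℕ | 1 ≤ d ∧ HasDistinguishing H d}

/-! ### Reformulation with colourings of all pairs -/

/-- Distinguishing, for a colouring of all unordered pairs of which only edges matter. -/
def D2 {W : Type x} (H : SimpleGraph W) {d : ℕ} (c : Sym2 W → Fin d) : Prop :=
  ∀ φ : H ≃g H, (∀ a b, H.Adj a b → c s(φ a, φ b) = c s(a, b)) → ∀ a, φ a = a

lemma class_iff {W : Type x} {H : SimpleGraph W} {d : ℕ} (c : H.edgeSet → Fin d) (φ : H ≃g H) :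
    (∀ i : Fin d, φ.mapEdgeSet '' (c ⁻¹' {i}) = c ⁻¹' {i}) ↔
      ∀ e, c (φ.mapEdgeSet e) = c e := by
  constructor
  · intro h e
    have h1 : φ.mapEdgeSet e ∈ φ.mapEdgeSet '' (c ⁻¹' {c e}) := ⟨e, by simp, rfl⟩
    rw [h (c e)] at h1
    simpa using h1
  · intro h i
    ext e
    constructor
    · rintro ⟨e', he', rfl⟩
      simp only [Set.mem_preimage, Set.mem_singleton_iff] at he' ⊢
      rw [h, he']
    · intro he
      refine ⟨φ.mapEdgeSet.symm e, ?_, Equiv.apply_symm_apply _ _⟩
      simp only [Set.mem_preimage, Set.mem_singleton_iff] at he ⊢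
      rw [← h (φ.mapEdgeSet.symm e), Equiv.apply_symm_apply]
      exact he

lemma hasDist_iff {W : Type x} {H : SimpleGraph W} {d : ℕ} (hd : 1 ≤ d) :
    HasDistinguishing H d ↔ ∃ c : Sym2 W → Fin d, D2 H c := by
  classical
  constructor
  · rintro ⟨c, hc⟩
    refine ⟨fun e => if h : e ∈ H.edgeSet then c ⟨e, h⟩ else ⟨0, hd⟩, ?_⟩
    intro φ hφ
    refine hc φ ((class_iff c φ).2 ?_)
    rintro ⟨e, he⟩
    induction e with
    | _ a b =>
      have hab : H.Adj a b := he
      have hab' : H.Adj (φ a) (φ b) := φ.map_adj_iff.2 hab
      have := hφ a b hab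
      dsimp only at this
      rw [dif_pos (show s(φ a, φ b) ∈ H.edgeSet from hab'),
        dif_pos (show s(a, b) ∈ H.edgeSet from hab)] at this
      exact this
  · rintro ⟨c, hc⟩
    refine ⟨fun e => c e.1, ?_⟩
    intro φ hφ
    rw [class_iff] at hφ
    refine hc φ ?_
    intro a b hab
    exact hφ ⟨s(a, b), hab⟩

/-! ### The colouring of the Mycielskian -/

/-- The colouring of `μ(G)` built from a colouring `c` of `G`. -/
def liftCol {V : Type x} {d : ℕ} (hd : 1 ≤ d) (c : Sym2 V → Fin d) :
    MVert V → MVert V → Fin d
  | .v a, .v b => c s(a, b)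
  | .v a, .u b => c s(a, b)
  | .u a, .v b => c s(a, b)
  | _, _ => ⟨0, hd⟩

lemma liftCol_comm {V : Type x} {d : ℕ} (hd : 1 ≤ d) (c : Sym2 V → Fin d) (p q : MVert V) :
    liftCol hd c p q = liftCol hd c q p := by
  rcases p with a | a | _ <;> rcases q with b | b | _ <;> simp [liftCol, Sym2.eq_swap]

/-- The same as a function on unordered pairs. -/
def liftSym {V : Type x} {d : ℕ} (hd : 1 ≤ d) (c : Sym2 V → Fin d) : Sym2 (MVert V) → Fin d :=
  Sym2.lift ⟨liftCol hd c, liftCol_comm hd c⟩

section adj
variable {V : Type x} {G : SimpleGraph V} {a b : V}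

@[simp] lemma adj_vv : (mycielskian G).Adj (.v a) (.v b) ↔ G.Adj a b := Iff.rfl
@[simp] lemma adj_vu : (mycielskian G).Adj (.v a) (.u b) ↔ G.Adj a b := Iff.rfl
@[simp] lemma adj_uv : (mycielskian G).Adj (.u a) (.v b) ↔ G.Adj a b := Iff.rfl
@[simp] lemma adj_uu : (mycielskian G).Adj (.u a) (.u b) ↔ False := Iff.rfl
@[simp] lemma adj_uw : (mycielskian G).Adj (.u a) .w ↔ True := Iff.rfl
@[simp] lemma adj_wu : (mycielskian G).Adj .w (.u a) ↔ True := Iff.rfl
@[simp] lemma adj_vw : (mycielskian G).Adj (.v a) .w ↔ False := Iff.rfl
@[simp] lemma adj_wv : (mycielskian G).Adj .w (.v a) ↔ False := Iff.rfl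
@[simp] lemma adj_ww : (mycielskian G).Adj (.w) .w ↔ False := Iff.rfl
end adj

/-- Swapping two twins of the same colours contradicts `D2`. -/
lemma twin_eq {V : Type x} {G : SimpleGraph V} {d : ℕ} {c : Sym2 V → Fin d} (hc : D2 G c)
    {p q : V} (hN : ∀ a, G.Adj a p ↔ G.Adj a q) (hcol : ∀ a, G.Adj a p → c s(a, p) = c s(a, q)) :
    p = q := by
  classical
  by_contra hpq
  have hpq' : ¬ G.Adj p q := by
    intro h
    have := (hN p).2 h
    exact G.irrefl this
  have hqp' : ¬ G.Adj q p := fun h => hpq' h.symm
  have hsw : ∀ a, a ≠ p → a ≠ q → Equiv.swap p q a = a := fun a h1 h2 =>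
    Equiv.swap_apply_of_ne_of_ne h1 h2
  let φ : G ≃g G :=
    { toEquiv := Equiv.swap p q
      map_rel_iff' := by
        intro a b
        by_cases hap : a = p
        · subst hap
          by_cases hbp : b = a
          · subst hbp; simp
          · by_cases hbq : b = q
            · subst hbq; simp [hpq', hqp']
            · rw [Equiv.swap_apply_left, hsw b hbp hbq, SimpleGraph.adj_comm, ← hN b,
                SimpleGraph.adj_comm]
        · by_cases haq : a = q
          · subst haq
            by_cases hbp : b = p
            · subst hbp; simp [hpq', hqp']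
            · by_cases hbq : b = a
              · subst hbq; simp
              · rw [Equiv.swap_apply_right, hsw b hbp hbq, SimpleGraph.adj_comm, hN b,
                  SimpleGraph.adj_comm]
          · rw [hsw a hap haq]
            by_cases hbp : b = p
            · subst hbp; rw [Equiv.swap_apply_left]; exact (hN a).symm
            · by_cases hbq : b = q
              · subst hbq; rw [Equiv.swap_apply_right]; exact hN a
              · rw [hsw b hbp hbq] }
  have hφ : ∀ a, φ a = Equiv.swap p q a := fun a => rfl
  have key : ∀ a b, G.Adj a b → c s(φ a, φ b) = c s(a, b) := by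
    have aux : ∀ a b, a ≠ p → a ≠ q → G.Adj a b → c s(φ a, φ b) = c s(a, b) := by
      intro a b hap haq hab
      rw [hφ, hφ, hsw a hap haq]
      by_cases hbp : b = p
      · subst hbp; rw [Equiv.swap_apply_left]; exact (hcol a hab).symm
      · by_cases hbq : b = q
        · subst hbq; rw [Equiv.swap_apply_right]; exact hcol a ((hN a).2 hab)
        · rw [hsw b hbp hbq]
    intro a b hab
    by_cases h1 : a = p ∨ a = q
    · have h2 : b ≠ p ∧ b ≠ q := by
        rcases h1 with rfl | rfl
        · refine ⟨fun h => ?_, fun h => ?_⟩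
          · subst h; exact G.irrefl hab
          · subst h; exact hpq' hab
        · refine ⟨fun h => ?_, fun h => ?_⟩
          · subst h; exact hqp' hab
          · subst h; exact G.irrefl hab
      have := aux b a h2.1 h2.2 hab.symm
      rw [Sym2.eq_swap, this, Sym2.eq_swap]
    · push Not at h1
      exact aux a b h1.1 h1.2 hab
  have := hc φ key p
  rw [hφ, Equiv.swap_apply_left] at this
  exact hpq this.symm

theorem lift_D2 {V : Type x} [Finite V] (G : SimpleGraph V) (hV : 3 ≤ Nat.card V) {d : ℕ}
    (hd : 1 ≤ d) (c : Sym2 V → Fin d) (hc : D2 G c) : D2 (mycielskian G) (liftSym hd c) := by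
  classical
  have := Fintype.ofFinite V
  -- three distinct vertices
  obtain ⟨x1, x2, x3, h12, h13, h23⟩ : ∃ x1 x2 x3 : V, x1 ≠ x2 ∧ x1 ≠ x3 ∧ x2 ≠ x3 := by
    rw [Nat.card_eq_fintype_card] at hV
    exact Fintype.two_lt_card_iff.1 hV
  intro φ hφ
  have hadj : ∀ p q, (mycielskian G).Adj (φ p) (φ q) ↔ (mycielskian G).Adj p q :=
    fun p q => φ.map_adj_iff
  have hcol : ∀ p q, (mycielskian G).Adj p q →
      liftCol hd c (φ p) (φ q) = liftCol hd c p q := fun p q h => hφ p q h
  -- the root is fixed
  have hw : φ .w = .w := by
    rcases h : φ .w with i | i | _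
    · -- the root goes to a copy `v i`
      exfalso
      -- preimage of the root
      obtain ⟨p, hp⟩ := φ.surjective .w
      obtain ⟨a, rfl⟩ : ∃ a, p = .v a := by
        rcases p with a | a | _
        · exact ⟨a, rfl⟩
        · have := (hadj (.u a) .w).2 (by simp)
          rw [hp, h] at this
          simp at this
        · rw [hp] at h; cases h
      -- preimage of `u i`
      obtain ⟨q, hq⟩ := φ.surjective (.u i)
      have hqa : (mycielskian G).Adj q (.v a) := by
        rw [← hadj, hq, hp]; simp
      obtain ⟨b, rfl⟩ : ∃ b, q = .v b := by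
        rcases q with b | b | _
        · exact ⟨b, rfl⟩
        · have := (hadj (.u b) .w).2 (by simp)
          rw [hq, h] at this
          simp at this
        · simp at hqa
      have hba : G.Adj b a := by simpa using hqa
      -- `φ (u a)` is adjacent to `v i` and `u i`
      have e1 : (mycielskian G).Adj (φ (.u a)) (.v i) := by
        rw [← h, hadj]; simp
      have e2 : (mycielskian G).Adj (φ (.u a)) (.u i) := by
        rw [← hq, hadj]; simpa using hba.symm
      obtain ⟨j, hj⟩ : ∃ j, φ (.u a) = .v j := by
        rcases hx : φ (.u a) with j | j | _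
        · exact ⟨j, rfl⟩
        · rw [hx] at e2; simp at e2
        · rw [hx] at e1; simp at e1
      have hji : G.Adj j i := by rw [hj] at e1; simpa using e1
      -- every neighbour of `a` is `b`
      have hab : ∀ b', G.Adj a b' → b' = b := by
        intro b' hb'
        -- φ (v b') is adjacent to φ (v a) = w, so it is some u k
        have f1 : (mycielskian G).Adj (φ (.v b')) .w := by
          rw [← hp, hadj]; simpa using hb'.symm
        obtain ⟨k, hk⟩ : ∃ k, φ (.v b') = .u k := by
          rcases hx : φ (.v b') with k | k | _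
          · rw [hx] at f1; simp at f1
          · exact ⟨k, rfl⟩
          · rw [hx] at f1; simp at f1
        -- and adjacent to φ (u a) = v j, so k ~ j, hence `v k` is adjacent to `v j`
        have f2 : G.Adj j k := by
          have : (mycielskian G).Adj (φ (.u a)) (φ (.v b')) := by
            rw [hadj]; simpa using hb'
          rw [hj, hk] at this
          simpa using this
        -- preimage of `v k` : adjacent to `u a`
        have hki : k = i := by
          obtain ⟨r, hr⟩ := φ.surjective (.v k)
          have f3 : (mycielskian G).Adj (.u a) r := by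
            rw [← hadj, hj, hr]; simpa using f2
          rcases r with r | r | _
          · -- φ (v r) = v k with r ~ a, but then φ (v r) ~ φ (v a) = w
            exfalso
            have f4 : (mycielskian G).Adj (φ (.v r)) (φ (.v a)) := by
              rw [hadj]
              have : G.Adj a r := by simpa using f3
              simpa using this.symm
            rw [hr, hp] at f4
            simp at f4
          · simp at f3
          · rw [h] at hr
            cases hr
            rfl
        rw [hki, ← hq] at hk
        have := φ.injective hk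
        cases this
        rfl
      -- now all `u y` are images of `v b` or `u b`
      have hU : ∀ y : V, .u y = φ (.v b) ∨ .u y = φ (.u b) := by
        intro y
        obtain ⟨r, hr⟩ := φ.surjective (.u y)
        have g1 : (mycielskian G).Adj r (.v a) := by
          rw [← hadj, hr, hp]; simp
        rcases r with r | r | _
        · have : r = b := hab r (by simpa using g1.symm)
          subst this
          exact Or.inl hr.symm
        · have : r = b := hab r (by simpa using g1.symm)
          subst this
          exact Or.inr hr.symm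
        · simp at g1
      have inj : ∀ y z : V, (MVert.u y) = .u z → y = z := by
        intro y z h; cases h; rfl
      rcases hU x1 with g1 | g1 <;> rcases hU x2 with g2 | g2 <;> rcases hU x3 with g3 | g3
      · exact h12 (inj _ _ (g1.trans g2.symm))
      · exact h12 (inj _ _ (g1.trans g2.symm))
      · exact h13 (inj _ _ (g1.trans g3.symm))
      · exact h23 (inj _ _ (g2.trans g3.symm))
      · exact h23 (inj _ _ (g2.trans g3.symm))
      · exact h13 (inj _ _ (g1.trans g3.symm))
      · exact h12 (inj _ _ (g1.trans g2.symm))
      · exact h12 (inj _ _ (g1.trans g2.symm))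
    · -- the root goes to a shadow `u i`
      exfalso
      have hcase : ∀ y : V, φ (.u y) = .w ∨ ∃ k, φ (.u y) = .v k ∧ G.Adj i k := by
        intro y
        have g : (mycielskian G).Adj (.u i) (φ (.u y)) := by
          rw [← h, hadj]; simp
        rcases hx : φ (.u y) with k | k | _
        · rw [hx] at g
          exact Or.inr ⟨k, rfl, by simpa using g⟩
        · rw [hx] at g; simp at g
        · exact Or.inl rfl
      let g : V → V := fun y => if hy : φ (.u y) = .w then i else
        ((hcase y).resolve_left hy).choose
      have g_w : ∀ y, φ (.u y) = .w → g y = i := fun y hy => by simp [g, hy]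
      have g_v : ∀ y, φ (.u y) ≠ .w → φ (.u y) = .v (g y) ∧ G.Adj i (g y) := fun y hy => by
        have := ((hcase y).resolve_left hy).choose_spec
        simpa [g, hy] using this
      have ginj : Function.Injective g := by
        intro y z hyz
        have inj : ∀ y z : V, φ (.u y) = φ (.u z) → y = z := by
          intro y z h
          have := φ.injective h
          cases this; rfl
        by_cases hy : φ (.u y) = .w <;> by_cases hz : φ (.u z) = .w
        · exact inj _ _ (hy.trans hz.symm)
        · exfalso
          have h1 := g_w y hy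
          have h2 := (g_v z hz).2
          rw [← hyz, h1] at h2
          exact G.irrefl h2
        · exfalso
          have h1 := g_w z hz
          have h2 := (g_v y hy).2
          rw [hyz, h1] at h2
          exact G.irrefl h2
        · refine inj _ _ ?_
          rw [(g_v y hy).1, (g_v z hz).1, hyz]
      have gsurj : Function.Surjective g := Finite.surjective_of_injective ginj
      have hdom : ∀ k, k ≠ i → G.Adj i k ∧ ∃ y, φ (.u y) = .v k := by
        intro k hk
        obtain ⟨y, rfl⟩ := gsurj k
        have hy : φ (.u y) ≠ .w := fun hy => hk (g_w y hy)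
        exact ⟨(g_v y hy).2, y, (g_v y hy).1⟩
      have hind : ∀ k l, k ≠ i → l ≠ i → ¬ G.Adj k l := by
        intro k l hk hl hkl
        obtain ⟨y, hy⟩ := (hdom k hk).2
        obtain ⟨z, hz⟩ := (hdom l hl).2
        have : (mycielskian G).Adj (φ (.u y)) (φ (.u z)) := by
          rw [hy, hz]; simpa using hkl
        rw [hadj] at this
        simp at this
      have hzero : ∀ k, k ≠ i → c s(i, k) = ⟨0, hd⟩ := by
        intro k hk
        obtain ⟨y, hy⟩ := (hdom k hk).2
        have := hcol .w (.u y) (by simp)
        rw [h, hy] at this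
        exact this
      obtain ⟨k, l, hk, hl, hkl⟩ : ∃ k l : V, k ≠ i ∧ l ≠ i ∧ k ≠ l := by
        by_cases h1 : x1 = i
        · subst h1
          exact ⟨x2, x3, h12.symm, h13.symm, h23⟩
        · by_cases h2 : x2 = i
          · subst h2
            exact ⟨x1, x3, h12, h23.symm, h13⟩
          · exact ⟨x1, x2, h1, h2, h12⟩
      apply hkl
      refine twin_eq hc ?_ ?_
      · intro a
        by_cases ha : a = i
        · subst ha
          exact ⟨fun _ => (hdom l hl).1, fun _ => (hdom k hk).1⟩
        · exact ⟨fun h' => absurd h' (hind a k ha hk), fun h' => absurd h' (hind a l ha hl)⟩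
      · intro a hak
        by_cases ha : a = i
        · subst ha
          rw [hzero k hk, hzero l hl]
        · exact absurd hak (hind a k ha hk)
    · rfl
  -- levels are preserved
  have hu : ∀ y, ∃ z, φ (.u y) = .u z := by
    intro y
    have g : (mycielskian G).Adj .w (φ (.u y)) := by
      rw [← hw, hadj]; simp
    rcases hx : φ (.u y) with k | k | _
    · rw [hx] at g; simp at g
    · exact ⟨k, rfl⟩
    · rw [hx] at g; simp at g
  have hv : ∀ y, ∃ z, φ (.v y) = .v z := by
    intro y
    have g : ¬ (mycielskian G).Adj .w (φ (.v y)) := by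
      rw [← hw, hadj]; simp
    rcases hx : φ (.v y) with k | k | _
    · exact ⟨k, rfl⟩
    · rw [hx] at g; simp at g
    · exfalso
      rw [← hw] at hx
      have := φ.injective hx
      cases this
  choose α hα using hv
  choose β hβ using hu
  -- `α` is an automorphism of `G`
  have αinj : Function.Injective α := by
    intro y z hyz
    have : φ (.v y) = φ (.v z) := by rw [hα, hα, hyz]
    have := φ.injective this
    cases this; rfl
  have αadj : ∀ a b, G.Adj (α a) (α b) ↔ G.Adj a b := by
    intro a b
    have := hadj (.v a) (.v b)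
    rw [hα, hα] at this
    simpa using this
  let ψ : G ≃g G :=
    { toEquiv := Equiv.ofBijective α (Finite.injective_iff_bijective.1 αinj)
      map_rel_iff' := by intro a b; exact αadj a b }
  have hψ : ∀ a, α a = a := by
    apply hc ψ
    intro a b hab
    have := hcol (.v a) (.v b) (by simpa using hab)
    rw [hα, hα] at this
    exact this
  have hβid : ∀ b, β b = b := by
    intro b
    symm
    have hN : ∀ a, G.Adj a b ↔ G.Adj a (β b) := by
      intro a
      have := hadj (.v a) (.u b)
      rw [hα, hβ, hψ] at this
      simpa using this.symm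
    refine twin_eq hc hN ?_
    intro a hab
    have := hcol (.v a) (.u b) (by simpa using hab)
    rw [hα, hβ, hψ] at this
    exact this.symm
  intro p
  rcases p with a | a | _
  · rw [hα, hψ]
  · rw [hβ, hβid]
  · exact hw

/-- Colouring all edges differently shows that a connected graph with at least three vertices
has a distinguishing edge colouring. -/
lemma exists_dist {V : Type x} [Finite V] (G : SimpleGraph V) (hV : 3 ≤ Nat.card V)
    (hG : G.Connected) : ∃ d, 1 ≤ d ∧ HasDistinguishing G d := by
  classical
  have := Fintype.ofFinite V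
  obtain ⟨x1, x2, x3, h12, h13, h23⟩ : ∃ x1 x2 x3 : V, x1 ≠ x2 ∧ x1 ≠ x3 ∧ x2 ≠ x3 := by
    rw [Nat.card_eq_fintype_card] at hV
    exact Fintype.two_lt_card_iff.1 hV
  have : Nonempty (Sym2 V) := ⟨s(x1, x1)⟩
  have hd : 1 ≤ Fintype.card (Sym2 V) := Fintype.card_pos
  refine ⟨Fintype.card (Sym2 V), hd, (hasDist_iff hd).2 ⟨Fintype.equivFin (Sym2 V), ?_⟩⟩
  intro φ hφ a
  have key : ∀ a b, G.Adj a b → s(φ a, φ b) = s(a, b) := fun a b hab =>
    (Fintype.equivFin (Sym2 V)).injective (hφ a b hab)
  by_contra hne
  -- if `a` is moved and `b` is a neighbour of `a`, then `φ a = b` and `φ b = a`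
  have h1 : ∀ a b, φ a ≠ a → G.Adj a b → φ a = b ∧ φ b = a := by
    intro a b hne hab
    have := key a b hab
    rw [Sym2.eq_iff] at this
    rcases this with h | h
    · exact absurd h.1 hne
    · exact h
  obtain ⟨b, hab⟩ : ∃ b, G.Adj a b := by
    obtain ⟨y, hy⟩ : ∃ y, y ≠ a := by
      by_cases h : x1 = a
      · exact ⟨x2, fun h' => h12 (h.trans h'.symm)⟩
      · exact ⟨x1, h⟩
    obtain ⟨p⟩ := hG.preconnected a y
    cases p with
    | nil => exact absurd rfl hy
    | cons h _ => exact ⟨_, h⟩
  obtain ⟨ha, hb⟩ := h1 a b hne hab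
  have hbne : φ b ≠ b := by rw [hb]; exact hab.ne
  -- the set `{a, b}` is closed under adjacency
  have hclosed : ∀ y z, (y = a ∨ y = b) → G.Adj y z → (z = a ∨ z = b) := by
    rintro y z (rfl | rfl) hyz
    · right; exact ((h1 _ z hne hyz).1.symm.trans ha)
    · left; exact ((h1 _ z hbne hyz).1.symm.trans hb)
  have hall : ∀ z, z = a ∨ z = b := by
    intro z
    have : ∀ (y z : V) (p : G.Walk y z), (y = a ∨ y = b) → (z = a ∨ z = b) := by
      intro y z p
      induction p with
      | nil => exact id
      | cons h _ ih => exact fun hy => ih (hclosed _ _ hy h)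
    obtain ⟨p⟩ := hG.preconnected a z
    exact this a z p (Or.inl rfl)
  rcases hall x1 with g1 | g1 <;> rcases hall x2 with g2 | g2 <;> rcases hall x3 with g3 | g3
  · exact h12 (g1.trans g2.symm)
  · exact h12 (g1.trans g2.symm)
  · exact h13 (g1.trans g3.symm)
  · exact h23 (g2.trans g3.symm)
  · exact h23 (g2.trans g3.symm)
  · exact h13 (g1.trans g3.symm)
  · exact h12 (g1.trans g2.symm)
  · exact h12 (g1.trans g2.symm)

/-- **Main result.**  Let `G` be a finite graph with at least three vertices.  Every `d ≥ 1` for
which `G` has a `d`-distinguishing edge colouring is also one for the Mycielskian `μ(G)`.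
If moreover `G` is connected, then both distinguishing indices are defined and
`D'(μ(G)) ≤ D'(G)`.  So the set of exceptional graphs in the question is empty. -/
theorem result {V : Type x} [Finite V] (G : SimpleGraph V) (hV : 3 ≤ Nat.card V) :
    (∀ d : ℕ, 1 ≤ d → HasDistinguishing G d → HasDistinguishing (mycielskian G) d) ∧
    (G.Connected →
      (∃ d, 1 ≤ d ∧ HasDistinguishing G d) ∧
      (∃ d, 1 ≤ d ∧ HasDistinguishing (mycielskian G) d) ∧
      distIndex (mycielskian G) ≤ distIndex G) := by
  have h1 : ∀ d : ℕ, 1 ≤ d → HasDistinguishing G d → HasDistinguishing (mycielskian G) d := by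
    intro d hd h
    obtain ⟨c, hc⟩ := (hasDist_iff hd).1 h
    exact (hasDist_iff hd).2 ⟨liftSym hd c, lift_D2 G hV hd c hc⟩
  refine ⟨h1, fun hG => ?_⟩
  obtain ⟨d, hd, h⟩ := exists_dist G hV hG
  refine ⟨⟨d, hd, h⟩, ⟨d, hd, h1 d hd h⟩, ?_⟩
  have hmem : distIndex G ∈ {d : ℕ | 1 ≤ d ∧ HasDistinguishing G d} := Nat.sInf_mem ⟨d, hd, h⟩
  exact Nat.sInf_le ⟨hmem.1, h1 _ hmem.1 hmem.2⟩

end Pool.Agent.Results.MP_da4765_co.NoExceptions
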